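import Pool.Agent.W544.K3.Defs

set_option autoImplicit false

/-! # (EXP): one parameter groups -/

namespace Pool.Agent.V5helper68.DRB

open Module Finset Pool.Agent.W544.K3

theorem mult_cont {n k : ℕ} (t : MultilinearMap ℝ (fun _ : Fin k => (Fin n → ℝ)) ℝ) :
    Continuous t := by
  classical
  have h : (t : (Fin k → Fin n → ℝ) → ℝ) = fun w => ∑ I : Fin k → Fin n,
      (∏ j, w j (I j)) • t (fun j => Pi.single (I j) 1) := by
    funext w
    have hw : w = fun j => ∑ i, w j i • (Pi.single i (1 : ℝ) : Fin n → ℝ) := by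
      funext j
      exact pi_eq_sum_univ' (w j)
    conv_lhs => rw [hw]
    rw [t.map_sum]
    refine Finset.sum_congr rfl fun I _ => ?_
    rw [t.map_smul_univ]
  rw [h]
  fun_prop

theorem t_EXP : S_exp := by
  intro n y
  classical
  set A : (Fin n → ℝ) →L[ℝ] (Fin n → ℝ) := LinearMap.toContinuousLinearMap y with hA
  have hAy : ∀ v, A v = y v := fun v => rfl
  set E : ℝ → End ℝ (Fin n → ℝ) := fun s =>
    ((NormedSpace.exp (s • A) : (Fin n → ℝ) →L[ℝ] (Fin n → ℝ)) : (Fin n → ℝ) →ₗ[ℝ] (Fin n → ℝ))
    with hE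
  have hEa : ∀ s v, E s v = NormedSpace.exp (s • A) v := fun s v => rfl
  have hE0 : E 0 = 1 := by
    ext1
    ext1
    simp [hEa, NormedSpace.exp_zero]
  have hinv : ∀ s, E s * E (-s) = 1 := by
    intro s
    have h : NormedSpace.exp (s • A) * NormedSpace.exp ((-s) • A) = 1 := by
      let _ : NormedAlgebra ℚ ((Fin n → ℝ) →L[ℝ] (Fin n → ℝ)) :=
        NormedAlgebra.restrictScalars ℚ ℝ _
      rw [← NormedSpace.exp_add_of_commute]
      · rw [← add_smul]
        simp [NormedSpace.exp_zero]
      · exact ((Commute.refl A).smul_left s).smul_right (-s)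
    refine LinearMap.ext fun v => ?_
    have := congrArg (fun F : (Fin n → ℝ) →L[ℝ] (Fin n → ℝ) => F v) h
    simpa [hEa] using this
  have hder : ∀ s v, HasDerivAt (fun s => E s v) (y (E s v)) s := by
    intro s v
    have h := hasDerivAt_exp_smul_const' (𝕂 := ℝ) A s
    have h2 := h.clm_apply (hasDerivAt_const s v)
    simpa [hEa, hAy] using h2
  refine ⟨E, hE0, hinv, hder, ?_, ?_⟩
  · intro M hM s v hv
    have hpow : ∀ m : ℕ, (A ^ m) v ∈ M := by
      intro m
      induction m with
      | zero => simpa using hv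
      | succ m ih =>
        rw [pow_succ', mul_apply_eq_comp]
        exact hM _ ih
    have hs := NormedSpace.exp_series_hasSum_exp' (𝕂 := ℝ) (s • A)
    have hs2 := hs.mapL (ContinuousLinearMap.apply ℝ (Fin n → ℝ) v)
    have hcl : IsClosed (M : Set (Fin n → ℝ)) := M.closed_of_finiteDimensional
    have : NormedSpace.exp (s • A) v ∈ M := by
      refine hcl.mem_of_tendsto hs2 (Filter.Eventually.of_forall fun F => ?_)
      refine M.sum_mem fun m _ => ?_
      have e : (ContinuousLinearMap.apply ℝ (Fin n → ℝ) v) (((m.factorial : ℝ)⁻¹) • (s • A) ^ m) =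
          ((m.factorial : ℝ)⁻¹) • s ^ m • (A ^ m) v := by
        simp [smul_pow]
      simp only [e]
      exact M.smul_mem _ (M.smul_mem _ (hpow m))
    exact this
  · intro k t ht s v
    let T : ContinuousMultilinearMap ℝ (fun _ : Fin k => (Fin n → ℝ)) ℝ := ⟨t, mult_cont t⟩
    have hT : ∀ w, T w = t w := fun w => rfl
    have hcurve : ∀ s, HasDerivAt (fun s => fun j => E s (v j)) (fun j => y (E s (v j))) s :=
      fun s => hasDerivAt_pi.2 fun j => hder s (v j)
    have hd : ∀ s, HasDerivAt (fun s => t fun j => E s (v j)) 0 s := by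
      intro s
      have h1 := (T.hasFDerivAt (x := fun j => E s (v j))).comp_hasDerivAt s (hcurve s)
      have h2 : T.linearDeriv (fun j => E s (v j)) (fun j => y (E s (v j))) = 0 := by
        rw [ContinuousMultilinearMap.linearDeriv_apply]
        exact ht fun j => E s (v j)
      rw [h2] at h1
      exact h1
    have hconst := is_const_of_deriv_eq_zero (f := fun s => t fun j => E s (v j))
      (fun s => (hd s).differentiableAt) (fun s => (hd s).deriv) s 0
    simpa [hE0] using hconst

end Pool.Agent.V5helper68.DRB
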