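import Pool.Agent.W544.K3.Defs

set_option autoImplicit false

/-! # (LIE): the operators which kill a multilinear form are a Lie algebra -/

namespace Pool.Agent.V5helper68.DRB

open Module Finset Pool.Agent.W544.K3

theorem t_LIE : S_lie := by
  intro V _ _ k t x y hx hy v
  classical
  have h1 : ∑ j, ∑ l, t (Function.update (Function.update v j (x (v j))) l
      (y (Function.update v j (x (v j)) l))) = 0 :=
    Finset.sum_eq_zero fun j _ => hy _
  have h2 : ∑ j, ∑ l, t (Function.update (Function.update v j (y (v j))) l
      (x (Function.update v j (y (v j)) l))) = 0 :=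
    Finset.sum_eq_zero fun j _ => hx _
  have key : ∀ (p q : End ℝ V),
      ∑ j, ∑ l, t (Function.update (Function.update v j (p (v j))) l
        (q (Function.update v j (p (v j)) l))) =
      (∑ j, t (Function.update v j (q (p (v j))))) +
      ∑ j, ∑ l ∈ Finset.univ.erase j, t (Function.update (Function.update v j (p (v j))) l
        (q (v l))) := by
    intro p q
    rw [← Finset.sum_add_distrib]
    refine Finset.sum_congr rfl fun j _ => ?_
    rw [← Finset.add_sum_erase _ _ (Finset.mem_univ j)]
    congr 1
    · simp
    · refine Finset.sum_congr rfl fun l hl => ?_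
      rw [Function.update_of_ne (Finset.ne_of_mem_erase hl)]
  rw [key x y] at h1
  rw [key y x] at h2
  have h3 : (∑ j, ∑ l ∈ Finset.univ.erase j, t (Function.update (Function.update v j (x (v j))) l
        (y (v l)))) = ∑ j, ∑ l ∈ Finset.univ.erase j,
        t (Function.update (Function.update v j (y (v j))) l (x (v l))) := by
    rw [Finset.sum_comm' (s' := fun l => Finset.univ.erase l) (t' := Finset.univ)]
    · refine Finset.sum_congr rfl fun l _ => Finset.sum_congr rfl fun j hj => ?_
      rw [Function.update_comm (Finset.ne_of_mem_erase hj)]
    · intro a b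
      simp [eq_comm, ne_comm]
  simp only [LinearMap.sub_apply, Module.End.mul_apply]
  have h4 : ∀ j, t (Function.update v j (x (y (v j)) - y (x (v j)))) =
      t (Function.update v j (x (y (v j)))) - t (Function.update v j (y (x (v j)))) :=
    fun j => t.map_update_sub v j _ _
  simp only [h4, Finset.sum_sub_distrib]
  linarith

end Pool.Agent.V5helper68.DRB
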