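import Pool.Agent.W544.K3.Defs

set_option autoImplicit false

/-! # (RE): the symmetric part of an operator which kills a form -/

namespace Pool.Agent.V5helper68.DRB

open Module Finset Pool.Agent.W544.K3

/-- an orthonormal basis of eigenvectors of a symmetric operator -/
theorem eigBasis (V : Type) [AddCommGroup V] [Module ℝ V] [FiniteDimensional ℝ V]
    (P : V →ₗ[ℝ] V →ₗ[ℝ] ℝ) (hP : IsPos P) (y : End ℝ V) (hy : SymOp P y) :
    ∃ (n : ℕ) (b : Fin n → V) (μ : Fin n → ℝ), (∀ i, y (b i) = μ i • b i) ∧
      (∀ v : V, v = ∑ i, P (b i) v • b i) := by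
  let core : InnerProductSpace.Core ℝ V :=
    { inner := fun u v => P u v
      conj_inner_symm := fun u v => by
        simp only [conj_trivial]
        exact hP.1 v u
      re_inner_nonneg := fun u => by
        simp only [RCLike.re_to_real]
        by_cases hu : u = 0
        · simp [hu]
        · exact (hP.2 u hu).le
      add_left := fun u v w => by simp
      smul_left := fun u v r => by simp
      definite := fun u hu => by
        by_contra h
        exact absurd hu (hP.2 u h).ne' }
  let _ : NormedAddCommGroup V := core.toNormedAddCommGroup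
  let _ : InnerProductSpace ℝ V := InnerProductSpace.ofCore core.toCore
  have hsym : (y : V →ₗ[ℝ] V).IsSymmetric := fun u v => hy u v
  let b := hsym.eigenvectorBasis (rfl : finrank ℝ V = finrank ℝ V)
  refine ⟨finrank ℝ V, fun i => b i, fun i => hsym.eigenvalues rfl i, fun i => ?_, fun v => ?_⟩
  · have h := hsym.apply_eigenvectorBasis rfl i
    rw [RCLike.ofReal_real_eq_id] at h
    exact h
  · exact (b.sum_repr' v).symm

theorem t_RE : S_re := by
  intro V _ _ _ P hP y₁ y₂ h1 h2 hc k t ht
  classical
  obtain ⟨n, b, μ, hb, hsum⟩ := eigBasis V P hP y₁ h1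
  set c : Fin n → Fin n → ℝ := fun m i => P (b m) (y₂ (b i)) with hcdef
  set T : (Fin k → Fin n) → ℝ := fun I => t (fun j => b (I j)) with hT
  set s : (Fin k → Fin n) → ℝ := fun I => ∑ j, μ (I j) with hs
  have hanti : ∀ m i, c m i = - c i m := by
    intro m i
    have h := h2 (b i) (b m)
    simp only [hcdef]
    rw [hP.1 (b m)]
    linarith
  have hcom : ∀ m i, μ m * c m i = μ i * c m i := by
    intro m i
    simp only [hcdef]
    have e1 : P (b m) (y₁ (y₂ (b i))) = μ m * P (b m) (y₂ (b i)) := by
      rw [← h1, hb]
      simp
    have e2 : P (b m) (y₁ (y₂ (b i))) = μ i * P (b m) (y₂ (b i)) := by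
      have : y₁ (y₂ (b i)) = y₂ (y₁ (b i)) := by
        have := LinearMap.congr_fun hc (b i)
        simpa using this
      rw [this, hb]
      simp
    rw [← e1, e2]
  have hupd : ∀ (I : Fin k → Fin n) (j : Fin k) (m : Fin n),
      t (Function.update (fun j => b (I j)) j (b m)) = T (Function.update I j m) := by
    intro I j m
    simp only [hT]
    congr 1
    funext l
    by_cases h : l = j
    · subst h
      simp
    · simp [h]
  have hD1 : ∀ I : Fin k → Fin n,
      ∑ j, t (Function.update (fun j => b (I j)) j (y₁ (b (I j)))) = s I * T I := by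
    intro I
    simp only [hs, Finset.sum_mul]
    refine Finset.sum_congr rfl fun j _ => ?_
    rw [hb, t.map_update_smul, hupd, Function.update_eq_self, smul_eq_mul]
  have hD2 : ∀ I : Fin k → Fin n,
      ∑ j, t (Function.update (fun j => b (I j)) j (y₂ (b (I j)))) =
        ∑ j, ∑ m, c m (I j) * T (Function.update I j m) := by
    intro I
    refine Finset.sum_congr rfl fun j _ => ?_
    rw [hsum (y₂ (b (I j))), t.map_update_sum]
    refine Finset.sum_congr rfl fun m _ => ?_
    rw [t.map_update_smul, hupd, smul_eq_mul]
  have hzero : ∀ I : Fin k → Fin n,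
      s I * T I + ∑ j, ∑ m, c m (I j) * T (Function.update I j m) = 0 := by
    intro I
    have h := ht (fun j => b (I j))
    simp only [LinearMap.add_apply] at h
    have h' : ∀ j, t (Function.update (fun j => b (I j)) j (y₁ (b (I j)) + y₂ (b (I j)))) =
        t (Function.update (fun j => b (I j)) j (y₁ (b (I j)))) +
        t (Function.update (fun j => b (I j)) j (y₂ (b (I j)))) := fun j => t.map_update_add _ _ _ _
    simp only [h', Finset.sum_add_distrib] at h
    rw [hD1, hD2] at h
    exact h
  -- the mixed term vanishes
  have hmix : ∀ j : Fin k, ∑ p : (Fin k → Fin n) × Fin n,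
      s p.1 * T p.1 * (c p.2 (p.1 j) * T (Function.update p.1 j p.2)) = 0 := by
    intro j
    set F : (Fin k → Fin n) × Fin n → ℝ := fun p =>
      s p.1 * T p.1 * (c p.2 (p.1 j) * T (Function.update p.1 j p.2)) with hF
    have hinv : Function.Involutive (fun p : (Fin k → Fin n) × Fin n =>
        ((Function.update p.1 j p.2, p.1 j) : (Fin k → Fin n) × Fin n)) := by
      rintro ⟨I, m⟩
      simp
    have h := Equiv.sum_comp (Function.Involutive.toPerm _ hinv) F
    have hneg : ∀ p : (Fin k → Fin n) × Fin n, F (Function.Involutive.toPerm _ hinv p) = - F p := by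
      rintro ⟨I, m⟩
      simp only [Function.Involutive.coe_toPerm, hF, Function.update_self,
        Function.update_idem, Function.update_eq_self]
      have hss : s (Function.update I j m) * c (I j) m = s I * c (I j) m := by
        have e1 : s (Function.update I j m) = s I - μ (I j) + μ m := by
          simp only [hs]
          rw [← Finset.add_sum_erase _ _ (Finset.mem_univ j),
            ← Finset.add_sum_erase (Finset.univ) (fun l => μ (I l)) (Finset.mem_univ j)]
          have : ∑ x ∈ Finset.univ.erase j, μ (Function.update I j m x) =
              ∑ x ∈ Finset.univ.erase j, μ (I x) := by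
            refine Finset.sum_congr rfl fun l hl => ?_
            rw [Function.update_of_ne (Finset.ne_of_mem_erase hl)]
          rw [this]
          simp
          ring
        rw [e1]
        have := hcom (I j) m
        linarith
      have h5 := hanti m (I j)
      rw [h5]
      calc s (Function.update I j m) * T (Function.update I j m) * (c (I j) m * T I)
          = (s (Function.update I j m) * c (I j) m) * (T (Function.update I j m) * T I) := by ring
        _ = (s I * c (I j) m) * (T (Function.update I j m) * T I) := by rw [hss]
        _ = -(s I * T I * (-c (I j) m * T (Function.update I j m))) := by ring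
    rw [Finset.sum_congr rfl fun p _ => hneg p] at h
    rw [Finset.sum_neg_distrib] at h
    linarith
  have hsq : ∑ I : Fin k → Fin n, (s I * T I) ^ 2 = 0 := by
    have e1 : ∀ I : Fin k → Fin n, (s I * T I) ^ 2 =
        - ∑ j, ∑ m, s I * T I * (c m (I j) * T (Function.update I j m)) := by
      intro I
      have h := hzero I
      have : ∑ j, ∑ m, s I * T I * (c m (I j) * T (Function.update I j m)) =
          (s I * T I) * ∑ j, ∑ m, c m (I j) * T (Function.update I j m) := by
        simp only [Finset.mul_sum]
      rw [this]
      have h' : ∑ j, ∑ m, c m (I j) * T (Function.update I j m) = -(s I * T I) := by linarith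
      rw [h']
      ring
    rw [Finset.sum_congr rfl fun I _ => e1 I, Finset.sum_neg_distrib, Finset.sum_comm,
      Finset.sum_eq_zero, neg_zero]
    intro j _
    rw [← Fintype.sum_prod_type' (f := fun (I : Fin k → Fin n) (m : Fin n) =>
      s I * T I * (c m (I j) * T (Function.update I j m)))]
    exact hmix j
  have hall : ∀ I, s I * T I = 0 := by
    intro I
    have := (Finset.sum_eq_zero_iff_of_nonneg (fun I _ => sq_nonneg (s I * T I))).1 hsq I
      (Finset.mem_univ I)
    exact pow_eq_zero_iff (two_ne_zero) |>.1 this
  -- conclusion by multilinearity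
  intro v
  set D : MultilinearMap ℝ (fun _ : Fin k => V) ℝ :=
    ∑ j, t.compLinearMap (Function.update (fun _ => LinearMap.id) j y₁) with hDdef
  have hDv : ∀ w : Fin k → V, D w = ∑ j, t (Function.update w j (y₁ (w j))) := by
    intro w
    simp only [hDdef, _root_.sum_apply, MultilinearMap.compLinearMap_apply]
    refine Finset.sum_congr rfl fun j _ => ?_
    congr 1
    funext l
    by_cases h : l = j
    · subst h
      simp
    · simp [h]
  rw [← hDv]
  have hv : v = fun j => ∑ i, P (b i) (v j) • b i := funext fun j => hsum (v j)
  rw [hv, D.map_sum]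
  refine Finset.sum_eq_zero fun I _ => ?_
  rw [D.map_smul_univ, hDv]
  rw [hD1 I, hall I, smul_zero]

end Pool.Agent.V5helper68.DRB
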