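import Pool.Agent.W544.K3.Defs

set_option autoImplicit false

/-! # (REH): the real part of an element with real eigenvalues on two hyperbolic pairs -/

namespace Pool.Agent.V5helper68.DRB

open Module Finset Pool.Agent.W544.K3

theorem t_REH : S_reH := by
  intro U _ _ _ B h n D e₁ f₁ e₂ f₂ H y hy α β y1e y1f y2e y2f
  obtain ⟨hs, ⟨a1, a2, a3⟩, ⟨b1, b2, b3⟩, c1, c2, c3, c4, hneg⟩ := H
  have a3' : B f₁ e₁ = 1 := by rw [hs]; exact a3
  have b3' : B f₂ e₂ = 1 := by rw [hs]; exact b3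
  have c1' : B e₂ e₁ = 0 := by rw [hs]; exact c1
  have c2' : B f₂ e₁ = 0 := by rw [hs]; exact c2
  have c3' : B e₂ f₁ = 0 := by rw [hs]; exact c3
  have c4' : B f₂ f₁ = 0 := by rw [hs]; exact c4
  have hsk := D.skew y hy
  set y₁ : End ℝ U := α • wedge B f₁ e₁ + β • wedge B f₂ e₂ with hy₁
  have hy1a : ∀ u, y₁ u = α • (B f₁ u • e₁ - B e₁ u • f₁) + β • (B f₂ u • e₂ - B e₂ u • f₂) := by
    intro u
    simp [hy₁, wedge_apply]
  set y₂ : End ℝ U := y - y₁ with hy₂
  set pr : U →ₗ[ℝ] U := LinearMap.id - (B f₁).smulRight e₁ - (B e₁).smulRight f₁ -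
    (B f₂).smulRight e₂ - (B e₂).smulRight f₂ with hpr
  have hpra : ∀ u, pr u = u - B f₁ u • e₁ - B e₁ u • f₁ - B f₂ u • e₂ - B e₂ u • f₂ := by
    intro u
    simp [hpr]
  -- y₁ in the coordinates
  have p1 : ∀ u, B e₁ (y₁ u) = -α * B e₁ u := by
    intro u
    rw [hy1a]
    simp [a1, a3, c1, c2]
  have p2 : ∀ u, B f₁ (y₁ u) = α * B f₁ u := by
    intro u
    rw [hy1a]
    simp [a2, a3', c3, c4]
  have p3 : ∀ u, B e₂ (y₁ u) = -β * B e₂ u := by
    intro u
    rw [hy1a]
    simp [b1, b3, c1', c3']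
  have p4 : ∀ u, B f₂ (y₁ u) = β * B f₂ u := by
    intro u
    rw [hy1a]
    simp [b2, b3', c2', c4']
  have p5 : ∀ u, pr (y₁ u) = 0 := by
    intro u
    rw [hpra, p1, p2, p3, p4, hy1a]
    module
  -- y₂ in the coordinates
  have q1 : ∀ u, B e₁ (y₂ u) = 0 := by
    intro u
    have h1 := hsk e₁ u
    rw [y1e] at h1
    simp only [map_smul, LinearMap.smul_apply, smul_eq_mul] at h1
    rw [hy₂, LinearMap.sub_apply, map_sub, p1]
    linarith
  have q2 : ∀ u, B f₁ (y₂ u) = 0 := by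
    intro u
    have h1 := hsk f₁ u
    rw [y1f] at h1
    simp only [map_neg, LinearMap.neg_apply, map_smul, LinearMap.smul_apply, smul_eq_mul] at h1
    rw [hy₂, LinearMap.sub_apply, map_sub, p2]
    linarith
  have q3 : ∀ u, B e₂ (y₂ u) = 0 := by
    intro u
    have h1 := hsk e₂ u
    rw [y2e] at h1
    simp only [map_smul, LinearMap.smul_apply, smul_eq_mul] at h1
    rw [hy₂, LinearMap.sub_apply, map_sub, p3]
    linarith
  have q4 : ∀ u, B f₂ (y₂ u) = 0 := by
    intro u
    have h1 := hsk f₂ u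
    rw [y2f] at h1
    simp only [map_neg, LinearMap.neg_apply, map_smul, LinearMap.smul_apply, smul_eq_mul] at h1
    rw [hy₂, LinearMap.sub_apply, map_sub, p4]
    linarith
  have q5 : ∀ u, pr (y₂ u) = y₂ u := by
    intro u
    rw [hpra, q1, q2, q3, q4]
    simp
  -- y₂ kills the four vectors
  have r1 : y₂ e₁ = 0 := by
    rw [hy₂, LinearMap.sub_apply, y1e, hy1a, a1, a3', c1', c2']
    simp
  have r2 : y₂ f₁ = 0 := by
    rw [hy₂, LinearMap.sub_apply, y1f, hy1a, a2, a3, c3', c4']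
    simp
  have r3 : y₂ e₂ = 0 := by
    rw [hy₂, LinearMap.sub_apply, y2e, hy1a, b1, b3', c1, c3]
    simp
  have r4 : y₂ f₂ = 0 := by
    rw [hy₂, LinearMap.sub_apply, y2f, hy1a, b2, b3, c2, c4]
    simp
  have r5 : ∀ u, y₂ (pr u) = y₂ u := by
    intro u
    rw [hpra]
    simp [r1, r2, r3, r4]
  have hsk1 : Skew B y₁ := by
    intro u v
    rw [hy1a, hy1a]
    simp only [map_add, map_sub, map_smul, LinearMap.add_apply, LinearMap.sub_apply,
      LinearMap.smul_apply, smul_eq_mul]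
    rw [hs u e₁, hs u f₁, hs u e₂, hs u f₂]
    ring
  have hsk2 : Skew B y₂ := by
    intro u v
    have h1 := hsk u v
    have h2 := hsk1 u v
    simp only [hy₂, LinearMap.sub_apply, map_sub]
    linarith
  -- the inner product
  set P : U →ₗ[ℝ] U →ₗ[ℝ] ℝ := LinearMap.mk₂ ℝ
    (fun u v => B e₁ u * B e₁ v + B f₁ u * B f₁ v + B e₂ u * B e₂ v + B f₂ u * B f₂ v -
      B (pr u) (pr v))
    (fun u u' v => by simp; ring) (fun c u v => by simp; ring)
    (fun u v v' => by simp; ring) (fun c u v => by simp; ring) with hPd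
  have hPa : ∀ u v, P u v = B e₁ u * B e₁ v + B f₁ u * B f₁ v + B e₂ u * B e₂ v +
      B f₂ u * B f₂ v - B (pr u) (pr v) := fun u v => rfl
  have s1 : ∀ u, B e₁ (pr u) = 0 := by
    intro u
    rw [hpra]
    simp [a1, a3, c1, c2]
  have s2 : ∀ u, B f₁ (pr u) = 0 := by
    intro u
    rw [hpra]
    simp [a2, a3', c3, c4]
  have s3 : ∀ u, B e₂ (pr u) = 0 := by
    intro u
    rw [hpra]
    simp [b1, b3, c1', c3']
  have s4 : ∀ u, B f₂ (pr u) = 0 := by
    intro u
    rw [hpra]
    simp [b2, b3', c2', c4']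
  have hPos : IsPos P := by
    refine ⟨fun u v => ?_, fun u hu => ?_⟩
    · rw [hPa, hPa, hs (pr u)]
      ring
    · rw [hPa]
      by_cases hp : pr u = 0
      · have hne : B e₁ u ≠ 0 ∨ B f₁ u ≠ 0 ∨ B e₂ u ≠ 0 ∨ B f₂ u ≠ 0 := by
          by_contra hcon
          push Not at hcon
          obtain ⟨k1, k2, k3, k4⟩ := hcon
          apply hu
          have := hpra u
          rw [hp, k1, k2, k3, k4] at this
          simpa using this.symm
        rw [hp]
        simp only [map_zero, sub_zero]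
        rcases hne with k | k | k | k
        · have := mul_self_pos.2 k
          linarith [mul_self_nonneg (B f₁ u), mul_self_nonneg (B e₂ u), mul_self_nonneg (B f₂ u)]
        · have := mul_self_pos.2 k
          linarith [mul_self_nonneg (B e₁ u), mul_self_nonneg (B e₂ u), mul_self_nonneg (B f₂ u)]
        · have := mul_self_pos.2 k
          linarith [mul_self_nonneg (B f₁ u), mul_self_nonneg (B e₁ u), mul_self_nonneg (B f₂ u)]
        · have := mul_self_pos.2 k
          linarith [mul_self_nonneg (B f₁ u), mul_self_nonneg (B e₂ u), mul_self_nonneg (B e₁ u)]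
      · have := hneg (pr u) hp (s1 u) (s2 u) (s3 u) (s4 u)
        have g1 := mul_self_nonneg (B e₁ u)
        have g2 := mul_self_nonneg (B f₁ u)
        have g3 := mul_self_nonneg (B e₂ u)
        have g4 := mul_self_nonneg (B f₂ u)
        linarith
  have hSym : SymOp P y₁ := by
    intro u v
    rw [hPa, hPa, p1, p2, p3, p4, p5, p1, p2, p3, p4, p5]
    simp
    ring
  have hSkew : Skew P y₂ := by
    intro u v
    rw [hPa, hPa, q1, q2, q3, q4, q5, q1, q2, q3, q4, q5]
    have h1 := hsk2 (pr u) (pr v)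
    rw [r5, r5] at h1
    linarith
  have hcomm : y₁ * y₂ = y₂ * y₁ := by
    ext u
    simp only [Module.End.mul_apply]
    rw [hy1a (y₂ u), q1, q2, q3, q4, hy1a u]
    simp [r1, r2, r3, r4]
  exact D.re P hPos y₁ y₂ hSym hSkew hcomm (by rw [hy₂]; simpa using hy)

end Pool.Agent.V5helper68.DRB
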