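import Pool.Agent.W544.K3.Defs2
import Pool.Agent.V5helper10.DRB.Hodge

/-!
# Project DRB, stage 2: from the orthogonal Lie algebras to Hodge classes (HODGE2)
-/

open Module Finset

set_option autoImplicit false

namespace Pool.Agent.V5helper68.DRB

open Pool.Agent.W544.K3
open Pool.Agent.V5helper10.DRB

noncomputable section

variable {n N : ℕ} (X : Multi n N)

theorem m_bil_omega (i : Fin N) :
    bilR X.B (re (X.ω i)) (re (X.ω i)) = bilR X.B (im (X.ω i)) (im (X.ω i)) ∧
    bilR X.B (re (X.ω i)) (im (X.ω i)) = 0 ∧ 0 < bilR X.B (re (X.ω i)) (re (X.ω i)) := by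
  have h1 := X.iso i
  have h2 := X.pos i
  have h3 : bil X.B (X.ω i) (X.ω i) =
      ((bilR X.B (re (X.ω i)) (re (X.ω i)) - bilR X.B (im (X.ω i)) (im (X.ω i)) : ℝ) : ℂ) +
      ((2 * bilR X.B (re (X.ω i)) (im (X.ω i)) : ℝ) : ℂ) * Complex.I := by
    conv_lhs => rw [eq_re_im (X.ω i)]
    rw [bil_add_left, bil_add_right, bil_add_right, bil_smul_left, bil_smul_right, bil_smul_left,
      bil_smul_right, bil_oR, bil_oR, bil_oR, bil_oR,
      bilR_symm X.B X.symm (im (X.ω i)) (re (X.ω i))]
    push_cast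
    linear_combination (bilR X.B (im (X.ω i)) (im (X.ω i)) : ℂ) * Complex.I_mul_I
  have h4 : bil X.B (X.ω i) (cj (X.ω i)) =
      ((bilR X.B (re (X.ω i)) (re (X.ω i)) + bilR X.B (im (X.ω i)) (im (X.ω i)) : ℝ) : ℂ) := by
    rw [cj_eq]
    conv_lhs => rw [eq_re_im (X.ω i)]
    have e1 : oR (re (oR (re (X.ω i)) + Complex.I • oR (im (X.ω i)))) -
        Complex.I • oR (im (oR (re (X.ω i)) + Complex.I • oR (im (X.ω i)))) =
        oR (re (X.ω i)) + (-Complex.I) • oR (im (X.ω i)) := by
      rw [← eq_re_im, neg_smul, sub_eq_add_neg]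
    rw [e1]
    rw [bil_add_left, bil_add_right, bil_add_right, bil_smul_left, bil_smul_right, bil_smul_left,
      bil_smul_right, bil_oR, bil_oR, bil_oR, bil_oR,
      bilR_symm X.B X.symm (im (X.ω i)) (re (X.ω i))]
    push_cast
    linear_combination (-(bilR X.B (im (X.ω i)) (im (X.ω i)) : ℂ)) * Complex.I_mul_I
  rw [h3] at h1
  rw [h4] at h2
  have h5 := congrArg Complex.re h1
  have h6 := congrArg Complex.im h1
  simp only [Complex.add_re, Complex.ofReal_re, Complex.mul_re, Complex.ofReal_im, Complex.I_re,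
    Complex.I_im, Complex.add_im, Complex.mul_im, Complex.zero_re, Complex.zero_im] at h5 h6
  rw [Complex.ofReal_re] at h2
  refine ⟨by linarith, by linarith, by linarith⟩

theorem m_re_mem_U (i : Fin N) : re (X.ω i) ∈ X.U i := by
  refine ⟨fun a ha => ?_, ?_⟩
  · simp [re, X.ωblock i a ha]
  · intro P _ c hc a
    rw [← app_re, hc]
    simp [re]

theorem m_im_mem_U (i : Fin N) : im (X.ω i) ∈ X.U i := by
  refine ⟨fun a ha => ?_, ?_⟩
  · simp [im, X.ωblock i a ha]
  · intro P _ c hc a
    rw [← app_im, hc]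
    simp [im]

/-- vectors in different blocks are orthogonal -/
theorem m_orth {i j : Fin N} (hij : i ≠ j) {u v : Fin n → ℝ} (hu : ∀ a, X.c a ≠ i → u a = 0)
    (hv : ∀ a, X.c a ≠ j → v a = 0) : bilR X.B u v = 0 := by
  rw [bilR_apply]
  refine Finset.sum_eq_zero fun a _ => Finset.sum_eq_zero fun b _ => ?_
  by_cases ha : X.c a = i
  · by_cases hb : X.c b = j
    · rw [X.Bblock a b (by rw [ha, hb]; exact hij)]
      simp
    · rw [hv b hb]
      simp
  · rw [hu a ha]
    simp

/-- real and imaginary part in terms of the vector and its conjugate -/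
theorem oR_re_eq (w : Fin n → ℂ) : oR (re w) = (1 / 2 : ℂ) • (w + cj w) := by
  rw [cj_eq]
  conv_rhs => rw [eq_re_im w]
  funext i
  simp only [re_I_smul_add, im_I_smul_add, oR, Pi.add_apply, Pi.smul_apply,
    Pi.sub_apply, smul_eq_mul]
  ring

theorem oR_im_eq (w : Fin n → ℂ) :
    oR (im w) = (1 / (2 * Complex.I) : ℂ) • (w + (-1 : ℂ) • cj w) := by
  rw [cj_eq]
  conv_rhs => rw [eq_re_im w]
  funext i
  simp only [re_I_smul_add, im_I_smul_add, oR, Pi.add_apply, Pi.smul_apply,
    Pi.sub_apply, smul_eq_mul]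
  field_simp
  ring

/-- a vector which is orthogonal to the two-form and its conjugate -/
theorem m_type0 {i : Fin N} {v : Fin n → ℂ} (h1 : bil X.B v (X.ω i) = 0)
    (h2 : bil X.B v (cj (X.ω i)) = 0) :
    (bilR X.B (re (X.ω i)) (re v) = 0 ∧ bilR X.B (re (X.ω i)) (im v) = 0) ∧
      bilR X.B (im (X.ω i)) (re v) = 0 ∧ bilR X.B (im (X.ω i)) (im v) = 0 := by
  have e1 : bil X.B v (oR (re (X.ω i))) = 0 := by
    rw [oR_re_eq, bil_smul_right, bil_add_right, h1, h2]
    simp
  have e2 : bil X.B v (oR (im (X.ω i))) = 0 := by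
    rw [oR_im_eq, bil_smul_right, bil_add_right, bil_smul_right, h1, h2]
    simp
  have e4 : ∀ w : Fin n → ℝ, bil X.B v (oR w) = 0 →
      bilR X.B w (re v) = 0 ∧ bilR X.B w (im v) = 0 := by
    intro w hw
    rw [eq_re_im v, bil_add_left, bil_smul_left, bil_oR, bil_oR] at hw
    have f1 := congrArg Complex.re hw
    have f2 := congrArg Complex.im hw
    simp only [Complex.add_re, Complex.ofReal_re, Complex.mul_re, Complex.ofReal_im,
      Complex.I_re, Complex.I_im, Complex.add_im, Complex.mul_im, Complex.zero_re,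
      Complex.zero_im] at f1 f2
    rw [bilR_symm X.B X.symm w, bilR_symm X.B X.symm w]
    constructor <;> linarith
  exact ⟨e4 _ e1, e4 _ e2⟩

theorem t_HODGE2 : S_hodge2 := by
  intro n N X hX k t ht v p hp hne
  set Bf := bilR X.B with hB
  set β : Fin N → ℝ := fun i => Bf (re (X.ω i)) (re (X.ω i)) with hβ
  have hβ0 : ∀ i, 0 < β i := fun i => (m_bil_omega X i).2.2
  set yi : Fin N → End ℝ (Fin n → ℝ) := fun i => wedge Bf (re (X.ω i)) (im (X.ω i)) with hyi
  set y : End ℝ (Fin n → ℝ) := ∑ i, (β i)⁻¹ • yi i with hy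
  have hym : y ∈ X.hT := by
    refine Submodule.sum_mem _ fun i _ => Submodule.smul_mem _ _ ?_
    refine hX i (yi i) (wedge_skew Bf (bilR_symm X.B X.symm) _ _) ?_
    intro v hv
    rw [hyi]
    simp only
    rw [wedge_apply, hv _ (m_re_mem_U X i), hv _ (m_im_mem_U X i)]
    simp
  have hya : ∀ w, y w = ∑ i, (β i)⁻¹ • (Bf (re (X.ω i)) w • im (X.ω i) -
      Bf (im (X.ω i)) w • re (X.ω i)) := by
    intro w
    rw [hy, LinearMap.sum_apply]
    refine Finset.sum_congr rfl fun i _ => ?_
    rw [LinearMap.smul_apply, hyi, wedge_apply]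
  have hbre : ∀ i a, X.c a ≠ i → re (X.ω i) a = 0 := fun i => (m_re_mem_U X i).1
  have hbim : ∀ i a, X.c a ≠ i → im (X.ω i) a = 0 := fun i => (m_im_mem_U X i).1
  have yP : ∀ i, y (re (X.ω i)) = im (X.ω i) := by
    intro i
    rw [hya, Finset.sum_eq_single i]
    · obtain ⟨h1, h2, h3⟩ := m_bil_omega X i
      rw [hB, bilR_symm X.B X.symm (im (X.ω i)), h2, zero_smul, sub_zero, smul_smul]
      have : (β i)⁻¹ * (bilR X.B) (re (X.ω i)) (re (X.ω i)) = 1 :=
        inv_mul_cancel₀ (hβ0 i).ne'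
      rw [this, one_smul]
    · intro j _ hj
      rw [hB, m_orth X hj (hbre j) (hbre i), m_orth X hj (hbim j) (hbre i)]
      simp
    · intro h
      exact absurd (Finset.mem_univ _) h
  have yQ : ∀ i, y (im (X.ω i)) = -re (X.ω i) := by
    intro i
    rw [hya, Finset.sum_eq_single i]
    · obtain ⟨h1, h2, h3⟩ := m_bil_omega X i
      rw [hB, h2, zero_smul, zero_sub, ← h1, smul_neg, smul_smul]
      have : (β i)⁻¹ * (bilR X.B) (re (X.ω i)) (re (X.ω i)) = 1 :=
        inv_mul_cancel₀ (hβ0 i).ne'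
      rw [this, one_smul]
    · intro j _ hj
      rw [hB, m_orth X hj (hbre j) (hbim i), m_orth X hj (hbim j) (hbim i)]
      simp
    · intro h
      exact absurd (Finset.mem_univ _) h
  have hk : KilM ((LinearMap.toMatrix' y).map (fun a : ℝ => (a : ℂ))) (fun I => (t I : ℂ)) := by
    have h5 := ((kills_iff t y).1 (hym k t ht)).map Complex.ofRealHom
    have e : (fun I => Complex.ofRealHom (t I : ℝ)) = fun I => ((t I : ℚ) : ℂ) := by
      funext I
      simp
    rw [e] at h5
    exact h5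
  rw [kilM_iff] at hk
  have h6 := hk v
  -- the action on vectors of Hodge type `p`
  have h7 : ∀ j, ((LinearMap.toMatrix' y).map (fun a : ℝ => (a : ℂ))).mulVec (v j) =
      (-Complex.I * (p j : ℂ)) • v j := by
    intro j
    rcases hp j with ⟨hj1, i, hj2⟩ | ⟨hj1, i, hj2⟩ | ⟨hj1, hj2⟩
    · rw [hj2, hj1, toMatrix_mulVec_c, yP, yQ]
      funext a
      have e := congrFun (eq_re_im (X.ω i)) a
      rw [Pi.smul_apply, e]
      simp only [oR, Pi.add_apply, Pi.smul_apply, smul_eq_mul, Pi.neg_apply]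
      push_cast
      linear_combination ((im (X.ω i) a : ℂ)) * Complex.I_mul_I
    · rw [hj2, hj1, toMatrix_mulVec_c]
      have e1 : re (cj (X.ω i)) = re (X.ω i) := by
        funext a
        simp [re, cj]
      have e2 : im (cj (X.ω i)) = -im (X.ω i) := by
        funext a
        simp [im, cj]
      rw [e1, e2, map_neg, yP, yQ]
      funext a
      have e := congrFun (cj_eq (X.ω i)) a
      rw [Pi.smul_apply, e]
      simp only [oR, Pi.add_apply, Pi.smul_apply, Pi.sub_apply, smul_eq_mul, neg_neg]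
      push_cast
      linear_combination ((im (X.ω i) a : ℂ)) * Complex.I_mul_I
    · rw [hj1, toMatrix_mulVec_c]
      have e0 : y (re (v j)) = 0 ∧ y (im (v j)) = 0 := by
        rw [hya, hya]
        constructor
        · refine Finset.sum_eq_zero fun i _ => ?_
          obtain ⟨⟨a1, a2⟩, a3, a4⟩ := m_type0 X (hj2 i).1 (hj2 i).2
          rw [hB, a1, a3]
          simp
        · refine Finset.sum_eq_zero fun i _ => ?_
          obtain ⟨⟨a1, a2⟩, a3, a4⟩ := m_type0 X (hj2 i).1 (hj2 i).2
          rw [hB, a2, a4]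
          simp
      rw [e0.1, e0.2]
      funext i
      simp [oR]
  simp only [h7] at h6
  have h8 : ∀ j, evK (fun I => (t I : ℂ)) (Function.update v j
      ((-Complex.I * (p j : ℂ)) • v j)) = (-Complex.I * (p j : ℂ)) * ev t v := by
    intro j
    unfold evK ev
    rw [Finset.mul_sum]
    refine Finset.sum_congr rfl fun I _ => ?_
    rw [← Finset.mul_prod_erase _ _ (Finset.mem_univ j), Function.update_self,
      ← Finset.mul_prod_erase _ (fun i => v i (I i)) (Finset.mem_univ j)]
    have h2 : ∏ i ∈ univ.erase j, (Function.update v j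
        ((-Complex.I * (p j : ℂ)) • v j)) i (I i) =
        ∏ i ∈ univ.erase j, v i (I i) := by
      refine Finset.prod_congr rfl fun i hi => ?_
      rw [Function.update_of_ne (Finset.ne_of_mem_erase hi)]
    rw [h2, Pi.smul_apply, smul_eq_mul]
    ring
  simp only [h8] at h6
  rw [← Finset.sum_mul, ← Finset.mul_sum] at h6
  rcases mul_eq_zero.1 h6 with h9 | h9
  · exfalso
    rcases mul_eq_zero.1 h9 with h10 | h10
    · rw [neg_eq_zero] at h10
      exact Complex.I_ne_zero h10
    · apply hne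
      exact_mod_cast h10
  · exact h9

end

end Pool.Agent.V5helper68.DRB
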