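import Pool.Agent.W544.K3.Defs2
import Pool.Agent.V5helper5.DRB.HYP

open Module Finset

namespace Pool.Agent.V5helper68.DRB

open Pool.Agent.W544.K3
open Pool.Agent.V5helper5.DRB (bt bt_apply)

noncomputable section

theorem t_HYP2 (hE : S_exp) (hC : S_comp) : S_hyp2 := by
  intro n h B U hU hB hsk hirr hpos hneg
  choose E hE0 hEi hEd hEM hEt using hE n
  set Gam : Submonoid (End ℝ (Fin n → ℝ)) :=
    Submonoid.closure {g | ∃ y ∈ h, ∃ s, g = E y s} with hGam
  have hgen : ∀ y ∈ h, ∀ s, E y s ∈ Gam := fun y hy s =>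
    Submonoid.subset_closure ⟨y, hy, s, rfl⟩
  -- inverses
  have hinv : ∀ g ∈ Gam, ∃ g' ∈ Gam, g * g' = 1 ∧ g' * g = 1 := by
    intro g hg
    induction hg using Submonoid.closure_induction with
    | mem g hg =>
      obtain ⟨y, hy, s, rfl⟩ := hg
      refine ⟨E y (-s), hgen y hy _, hEi y s, ?_⟩
      have := hEi y (-s)
      rwa [neg_neg] at this
    | one => exact ⟨1, Gam.one_mem, by simp, by simp⟩
    | mul a b _ _ iha ihb =>
      obtain ⟨a', ha', h1, h2⟩ := iha
      obtain ⟨b', hb', h3, h4⟩ := ihb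
      refine ⟨b' * a', Gam.mul_mem hb' ha', ?_, ?_⟩
      · calc a * b * (b' * a') = a * (b * b') * a' := by simp only [mul_assoc]
          _ = 1 := by rw [h3, mul_one, h1]
      · calc b' * a' * (a * b) = b' * (a' * a) * b := by simp only [mul_assoc]
          _ = 1 := by rw [h2, mul_one, h4]
  have hst : ∀ g ∈ Gam, ∀ M : Submodule ℝ (Fin n → ℝ), (∀ y ∈ h, ∀ v ∈ M, y v ∈ M) →
      ∀ v ∈ M, g v ∈ M := by
    intro g hg M hM
    induction hg using Submonoid.closure_induction with
    | mem g hg =>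
      obtain ⟨y, hy, s, rfl⟩ := hg
      exact hEM y M (hM y hy) s
    | one => intro v hv; simpa using hv
    | mul a b _ _ iha ihb =>
      intro v hv
      exact iha _ (ihb v hv)
  have hti : ∀ g ∈ Gam, ∀ (k : ℕ) (t : MultilinearMap ℝ (fun _ : Fin k => (Fin n → ℝ)) ℝ),
      (∀ y ∈ h, Kills y t) → ∀ v, t (fun j => g (v j)) = t v := by
    intro g hg k t ht
    induction hg using Submonoid.closure_induction with
    | mem g hg =>
      obtain ⟨y, hy, s, rfl⟩ := hg
      intro v
      exact hEt y k t (ht y hy) s v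
    | one => intro v; simp
    | mul a b _ _ iha ihb =>
      intro v
      have := iha (fun j => b (v j))
      rw [ihb v] at this
      exact this
  by_contra hcon
  -- no eigenvalue off the unit circle
  have heig : ∀ g ∈ Gam, ∀ α β : ℝ, ∀ u ∈ U, ∀ v ∈ U, (u ≠ 0 ∨ v ≠ 0) → g u = α • u - β • v →
      g v = β • u + α • v → α ^ 2 + β ^ 2 = 1 := by
    intro g hg α β u hu v hv huv e1 e2
    by_contra hne
    obtain ⟨g', hg', h1, h2⟩ := hinv g hg
    refine hcon ⟨LinearEquiv.ofLinear g g' h1 h2, ?_, α, β, hne, u, hu, v, hv, huv, e1, e2⟩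
    intro k t ht w
    exact hti g hg k t ht w
  -- the group acting on U
  have hgU : ∀ g ∈ Gam, ∀ u ∈ U, g u ∈ U := fun g hg => hst g hg U hU
  have hinvB : ∀ g ∈ Gam, ∀ u v, B (g u) (g v) = B u v := by
    intro g hg u v
    have hk : ∀ y ∈ h, Kills y (bt B) := by
      intro y hy w
      simp only [Fin.sum_univ_two, bt_apply]
      simpa using hsk y hy (w 0) (w 1)
    have := hti g hg 2 (bt B) hk ![u, v]
    simpa [bt_apply] using this
  refine hC U {φ : End ℝ U | ∃ g ∈ Gam, ∀ u : U, ((φ u : U) : Fin n → ℝ) = g u}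
    ⟨1, Gam.one_mem, fun u => rfl⟩ ?_ ?_ ?_ ?_ (B.compl₁₂ U.subtype U.subtype) ?_ ?_ ⟨?_, ?_⟩
  · rintro φ ⟨g, hg, hφ⟩ ψ ⟨g', hg', hψ⟩
    refine ⟨g * g', Gam.mul_mem hg hg', fun u => ?_⟩
    rw [End.mul_apply, hφ, hψ, End.mul_apply]
  · rintro φ ⟨g, hg, hφ⟩
    obtain ⟨g', hg', h1, h2⟩ := hinv g hg
    refine ⟨g'.restrict (hgU g' hg'), ⟨g', hg', fun u => rfl⟩, ?_, ?_⟩
    · ext u : 1
      apply Subtype.ext
      rw [End.mul_apply, hφ]
      have := LinearMap.congr_fun h1 (u : Fin n → ℝ)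
      simpa using this
    · ext u : 1
      apply Subtype.ext
      rw [End.mul_apply]
      have := LinearMap.congr_fun h2 (u : Fin n → ℝ)
      have h3 : ((g'.restrict (hgU g' hg') (φ u) : U) : Fin n → ℝ) = g' (φ u : U) := rfl
      rw [h3, hφ]
      simpa using this
  · intro M hJ hO
    have hinj : Function.Injective (U.subtype.prodMap U.subtype) := by
      rintro ⟨a, b⟩ ⟨c, d⟩ hab
      simp only [LinearMap.prodMap_apply, Submodule.subtype_apply, Prod.mk.injEq,
        SetLike.coe_eq_coe] at hab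
      rw [hab.1, hab.2]
    have hmem : ∀ a b : U, (((a : Fin n → ℝ), (b : Fin n → ℝ)) : (Fin n → ℝ) × (Fin n → ℝ)) ∈
        M.map (U.subtype.prodMap U.subtype) ↔ (a, b) ∈ M := by
      intro a b
      constructor
      · rintro ⟨q, hq, hqe⟩
        have : q = (a, b) := hinj hqe
        rwa [← this]
      · intro hab
        exact ⟨(a, b), hab, rfl⟩
    have key := hirr (M.map (U.subtype.prodMap U.subtype)) ?_ ?_ ?_
    · rcases key with key | key
      · left
        rw [eq_bot_iff]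
        rintro ⟨a, b⟩ hab
        have := (hmem a b).2 hab
        rw [key, Submodule.mem_bot] at this
        rw [Submodule.mem_bot]
        simp only [Prod.mk_eq_zero, ZeroMemClass.coe_eq_zero] at this
        rw [this.1, this.2]
        rfl
      · right
        rw [eq_top_iff]
        rintro ⟨a, b⟩ -
        exact (hmem a b).1 (key a a.2 b b.2)
    · rintro _ ⟨q, _, rfl⟩
      exact ⟨q.1.2, q.2.2⟩
    · rintro _ ⟨q, hq, rfl⟩
      exact ⟨_, hJ q hq, rfl⟩
    · intro y hy p hp
      by_contra hz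
      obtain ⟨f, hf1, hf2⟩ := Submodule.exists_le_ker_of_notMem hz
      have hst' : ∀ s, ((E y s p.1, E y s p.2) : (Fin n → ℝ) × (Fin n → ℝ)) ∈
          M.map (U.subtype.prodMap U.subtype) := by
        intro s
        obtain ⟨q, hq, rfl⟩ := hp
        have := hO ((E y s).restrict (hgU (E y s) (hgen y hy s)))
          ⟨E y s, hgen y hy s, fun u => rfl⟩ q hq
        exact ⟨_, this, rfl⟩
      have hd : HasDerivAt (fun s => ((E y s p.1, E y s p.2) : (Fin n → ℝ) × (Fin n → ℝ)))
          (y (E y 0 p.1), y (E y 0 p.2)) 0 := (hEd y 0 p.1).prodMk (hEd y 0 p.2)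
      have hd2 := (LinearMap.toContinuousLinearMap f).hasFDerivAt.comp_hasDerivAt (0 : ℝ) hd
      have hconst : ((LinearMap.toContinuousLinearMap f) ∘
          fun s => ((E y s p.1, E y s p.2) : (Fin n → ℝ) × (Fin n → ℝ))) = fun _ => (0 : ℝ) := by
        funext s
        exact hf2 (hst' s)
      rw [hconst] at hd2
      have h0 := hd2.unique (hasDerivAt_const (0 : ℝ) (0 : ℝ))
      apply hf1
      rw [hE0] at h0
      exact h0
  · rintro φ ⟨g, hg, hφ⟩ α β ⟨u, v, huv, h1, h2⟩
    refine heig g hg α β u u.2 v v.2 ?_ ?_ ?_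
    · rcases huv with huv | huv
      · left; simpa using huv
      · right; simpa using huv
    · rw [← hφ, h1]; rfl
    · rw [← hφ, h2]; rfl
  · intro u v
    exact hB _ _
  · rintro φ ⟨g, hg, hφ⟩ u v
    simp only [LinearMap.compl₁₂_apply, Submodule.subtype_apply]
    rw [hφ, hφ]
    exact hinvB g hg _ _
  · obtain ⟨u, hu, hp⟩ := hpos
    exact ⟨⟨u, hu⟩, hp⟩
  · obtain ⟨u, hu, hp⟩ := hneg
    exact ⟨⟨u, hu⟩, hp⟩

end

end Pool.Agent.V5helper68.DRB
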