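import Pool.Agent.V5helper68.DRB.HODGE2
import Pool.Agent.V5helper10.DRB.Irr

/-!
# Project DRB, stage 2: irreducibility and independence of the summands (IRR2, IND2)
-/

open Module Finset

set_option autoImplicit false

namespace Pool.Agent.V5helper68.DRB

open Pool.Agent.W544.K3
open Pool.Agent.V5helper10.DRB (re im oR eq_re_im bil_oR bil_add_left bil_add_right bil_smul_left
  bil_smul_right bilR_symm bil_symm cj_eq app_re app_im opR opR_apply app_oR re_app im_app
  sum_aux opR_one app_one cj_smul app_cj kills_iff KilM KilM.map re_I_smul_add im_I_smul_add)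

noncomputable section

variable {n N : ℕ} (X : Multi n N)

/-- the part of a vector in the block `i` -/
def blk (i : Fin N) (v : Fin n → ℝ) : Fin n → ℝ := fun a => if X.c a = i then v a else 0

theorem blk_ne (i : Fin N) (v : Fin n → ℝ) (a : Fin n) (ha : X.c a ≠ i) : blk X i v a = 0 := by
  simp [blk, ha]

/-- the form only sees the block -/
theorem bilR_blk {i : Fin N} {w : Fin n → ℝ} (hw : ∀ a, X.c a ≠ i → w a = 0) (v : Fin n → ℝ) :
    bilR X.B v w = bilR X.B (blk X i v) w := by
  rw [bilR_apply, bilR_apply]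
  refine Finset.sum_congr rfl fun a _ => Finset.sum_congr rfl fun b _ => ?_
  by_cases hb : X.c b = i
  · by_cases ha : X.c a = i
    · simp [blk, ha]
    · rw [X.Bblock a b (by rw [hb]; exact ha)]
      simp
  · rw [hw b hb]
    simp

theorem m_neg {i : Fin N} (w : Fin n → ℝ) (hw : w ≠ 0) (hb : ∀ a, X.c a ≠ i → w a = 0)
    (h1 : bilR X.B w (re (X.ω i)) = 0) (h2 : bilR X.B w (im (X.ω i)) = 0) :
    bilR X.B w w < 0 := by
  have h3 := X.neg i w hb hw (by
    have e : (fun i => (w i : ℂ)) = oR w := rfl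
    rw [e, eq_re_im (X.ω i), bil_add_right, bil_smul_right, bil_oR, bil_oR, h1, h2]
    simp)
  have e : (fun i => (w i : ℂ)) = oR w := rfl
  rw [e, bil_oR] at h3
  simpa using h3

theorem m_nondeg (w : Fin n → ℝ) (h : ∀ v, bilR X.B w v = 0) : w = 0 := by
  have key : ∀ i, blk X i w = 0 := by
    intro i
    by_contra hw
    have h1 : ∀ v, bilR X.B (blk X i w) v = 0 := by
      intro v
      rw [bilR_symm X.B X.symm, bilR_blk X (blk_ne X i w) v, bilR_symm X.B X.symm,
        ← bilR_blk X (blk_ne X i v) w]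
      exact h _
    have h2 := m_neg X (blk X i w) hw (blk_ne X i w) (h1 _) (h1 _)
    rw [h1] at h2
    exact lt_irrefl _ h2
  funext a
  have := congrFun (key (X.c a)) a
  simpa [blk] using this

/-- the tensor of the form `(u, v) ↦ B (P u) v` -/
def mtP (P : Matrix (Fin n) (Fin n) ℚ) : (Fin 2 → Fin n) → ℚ :=
  fun I => ∑ a, P a (I 0) * X.B a (I 1)

theorem formR_mtP (P : Matrix (Fin n) (Fin n) ℚ) (v : Fin 2 → Fin n → ℝ) :
    formR (mtP X P) v = bilR X.B (opR P (v 0)) (v 1) := by
  rw [formR_apply, bilR_apply]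
  simp only [mtP, opR_apply, Fin.prod_univ_two]
  rw [← (finTwoArrowEquiv (Fin n)).symm.sum_comp, Fintype.sum_prod_type]
  simp only [finTwoArrowEquiv_symm_apply, Matrix.cons_val_zero, Matrix.cons_val_one,
    Rat.cast_sum, Rat.cast_mul]
  exact sum_aux (fun i j => (P i j : ℝ)) (fun i j => (X.B i j : ℝ)) (v 0) (v 1)

theorem isDRB_mtP (P : Matrix (Fin n) (Fin n) ℚ)
    (h : ∀ i j, IsAlgebraic ℚ (bil X.B (app P (fun a => X.D a i)) (fun a => X.D a j))) :
    X.IsDRB (mtP X P) := by
  intro J
  have h1 := h (J 0) (J 1)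
  convert h1 using 1
  unfold bil app mtP
  simp only [Fin.prod_univ_two]
  rw [← (finTwoArrowEquiv (Fin n)).symm.sum_comp, Fintype.sum_prod_type]
  simp only [finTwoArrowEquiv_symm_apply, Matrix.cons_val_zero, Matrix.cons_val_one,
    Rat.cast_sum, Rat.cast_mul]
  exact sum_aux (fun i j => (P i j : ℂ)) (fun i j => (X.B i j : ℂ)) (fun a => X.D a (J 0))
    (fun a => X.D a (J 1))

theorem m_tP {y : End ℝ (Fin n → ℝ)} (hy : y ∈ X.hT) (P : Matrix (Fin n) (Fin n) ℚ)
    (h : ∀ i j, IsAlgebraic ℚ (bil X.B (app P (fun a => X.D a i)) (fun a => X.D a j)))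
    (u v : Fin n → ℝ) :
    bilR X.B (opR P (y u)) v + bilR X.B (opR P u) (y v) = 0 := by
  have h1 := hy 2 (mtP X P) (isDRB_mtP X P h) ![u, v]
  rw [Fin.sum_univ_two, formR_mtP, formR_mtP] at h1
  simpa using h1

theorem m_skew {y : End ℝ (Fin n → ℝ)} (hy : y ∈ X.hT) : Skew (bilR X.B) y := by
  intro u v
  have h1 := m_tP X hy 1 (by
    intro i j
    rw [app_one]
    exact X.alg i j) u v
  rw [opR_one] at h1
  exact h1

theorem m_comm (hD : X.Deligne) {y : End ℝ (Fin n → ℝ)} (hy : y ∈ X.hT)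
    {P : Matrix (Fin n) (Fin n) ℚ} (hP : X.HodgeEnd P) (u : Fin n → ℝ) :
    y (opR P u) = opR P (y u) := by
  have h1 : y (opR P u) - opR P (y u) = 0 := by
    apply m_nondeg X
    intro v
    have h2 := m_tP X hy P (hD P hP) u v
    have h3 := m_skew X hy (opR P u) v
    rw [map_sub, LinearMap.sub_apply]
    linarith
  exact sub_eq_zero.1 h1

/-- the block projections -/
def prj (i : Fin N) : Matrix (Fin n) (Fin n) ℚ := Matrix.diagonal fun a => if X.c a = i then 1 else 0

theorem app_prj (i : Fin N) (v : Fin n → ℂ) (a : Fin n) :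
    app (prj X i) v a = if X.c a = i then v a else 0 := by
  unfold app prj
  rw [Finset.sum_eq_single a]
  · rw [Matrix.diagonal_apply_eq]
    split_ifs <;> simp
  · intro b _ hb
    rw [Matrix.diagonal_apply_ne _ (Ne.symm hb)]
    simp
  · intro h
    exact absurd (Finset.mem_univ _) h

theorem opR_prj (i : Fin N) (v : Fin n → ℝ) : opR (prj X i) v = blk X i v := by
  funext a
  rw [opR_apply]
  unfold prj blk
  rw [Finset.sum_eq_single a]
  · rw [Matrix.diagonal_apply_eq]
    split_ifs <;> simp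
  · intro b _ hb
    rw [Matrix.diagonal_apply_ne _ (Ne.symm hb)]
    simp
  · intro h
    exact absurd (Finset.mem_univ _) h

theorem app_prj_omega (i j : Fin N) : app (prj X i) (X.ω j) = if j = i then X.ω j else 0 := by
  funext a
  rw [app_prj]
  by_cases hj : X.c a = j
  · rw [hj]
    split_ifs <;> rfl
  · have h0 := X.ωblock j a hj
    rw [h0]
    split_ifs <;> simp [h0]

theorem bil_prj (i j : Fin N) (w : Fin n → ℂ) (hw : ∀ a, X.c a ≠ j → w a = 0) (v : Fin n → ℂ) :
    bil X.B (app (prj X i) v) w = if j = i then bil X.B v w else 0 := by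
  split_ifs with hij
  · subst hij
    unfold bil
    refine Finset.sum_congr rfl fun a _ => Finset.sum_congr rfl fun b _ => ?_
    rw [app_prj]
    split_ifs with ha
    · rfl
    · by_cases hb : X.c b = j
      · rw [X.Bblock a b (by rw [hb]; exact ha)]
        simp
      · rw [hw b hb]
        simp
  · unfold bil
    refine Finset.sum_eq_zero fun a _ => Finset.sum_eq_zero fun b _ => ?_
    rw [app_prj]
    split_ifs with ha
    · by_cases hb : X.c b = j
      · rw [X.Bblock a b (by rw [hb, ha]; exact fun h => hij h.symm)]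
        simp
      · rw [hw b hb]
        simp
    · simp

theorem cjblock (i : Fin N) (a : Fin n) (ha : X.c a ≠ i) : cj (X.ω i) a = 0 := by
  simp [cj, X.ωblock i a ha]

theorem hodge_prj (i : Fin N) : X.HodgeEnd (prj X i) := by
  refine ⟨fun j => ?_, fun v hv j => ?_⟩
  · rw [app_prj_omega]
    split_ifs
    · exact Submodule.subset_span ⟨j, rfl⟩
    · exact Submodule.zero_mem _
  · rw [bil_prj X i j _ (X.ωblock j), bil_prj X i j _ (cjblock X j)]
    split_ifs
    · exact hv j
    · exact ⟨rfl, rfl⟩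

theorem m_U (hD : X.Deligne) {y : End ℝ (Fin n → ℝ)} (hy : y ∈ X.hT) {i : Fin N}
    {u : Fin n → ℝ} (hu : u ∈ X.U i) : y u ∈ X.U i := by
  refine ⟨fun a ha => ?_, ?_⟩
  · have h1 := m_comm X hD hy (hodge_prj X i) u
    have h2 : opR (prj X i) u = u := by
      rw [opR_prj]
      funext a
      unfold blk
      split_ifs with h
      · rfl
      · exact (hu.1 a h).symm
    rw [h2, opR_prj] at h1
    rw [h1]
    exact blk_ne X i _ a ha
  · intro P hP c hc a
    have h1 : opR P u = c • u := by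
      funext j
      rw [opR_apply, hu.2 P hP c hc j]
      rfl
    have h2 := m_comm X hD hy hP u
    rw [h1, map_smul] at h2
    have h3 := congrFun h2 a
    rw [opR_apply] at h3
    exact h3.symm

/-- Hodge endomorphisms act on the two-forms as scalars -/
theorem hodge_omega (hM : X.RealMult) {P : Matrix (Fin n) (Fin n) ℚ} (hP : X.HodgeEnd P)
    (i : Fin N) : ∃ c : ℂ, app P (X.ω i) = c • X.ω i := by
  obtain ⟨c, hc⟩ := (Submodule.mem_span_range_iff_exists_fun ℂ).1 (hP.1 i)
  refine ⟨c i, ?_⟩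
  have hblk : ∀ a, X.c a ≠ i → app P (X.ω i) a = 0 := by
    intro a ha
    unfold app
    refine Finset.sum_eq_zero fun b _ => ?_
    by_cases hb : X.c b = i
    · rw [(hM P hP).2 a b (by rw [hb]; exact ha)]
      simp
    · rw [X.ωblock i b hb]
      simp
  funext a
  by_cases ha : X.c a = i
  · rw [← hc, Finset.sum_apply, Finset.sum_eq_single i]
    · intro j _ hj
      rw [Pi.smul_apply, X.ωblock j a (by rw [ha]; exact fun h => hj h.symm)]
      simp
    · intro h
      exact absurd (Finset.mem_univ _) h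
  · rw [hblk a ha, Pi.smul_apply, X.ωblock i a ha]
    simp

/-- Hodge endomorphisms act on `U` as real scalars -/
theorem m_hodge_U (hM : X.RealMult) {P : Matrix (Fin n) (Fin n) ℚ} (hP : X.HodgeEnd P)
    (i : Fin N) : ∃ c : ℝ, ∀ u ∈ X.U i, opR P u = c • u := by
  obtain ⟨c, hc⟩ := hodge_omega X hM hP i
  have h1 := (hM P hP).1 (X.ω i) (cj (X.ω i))
  rw [hc, app_cj, hc, bil_smul_left, cj_smul, bil_smul_right] at h1
  have h2 : bil X.B (X.ω i) (cj (X.ω i)) ≠ 0 := by
    intro h
    have := X.pos i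
    rw [h] at this
    simp at this
  have h3 : c = starRingEnd ℂ c := mul_right_cancel₀ h2 h1
  have h4 : c = (c.re : ℂ) := by
    have := Complex.conj_eq_iff_real.1 h3.symm
    obtain ⟨s, hs⟩ := this
    rw [hs]
    simp
  refine ⟨c.re, fun u hu => ?_⟩
  funext j
  rw [opR_apply, hu.2 P hP c.re (by rw [← h4]; exact hc) j]
  rfl

/-- rational matrices killing the de Rham-Betti classes, as real operators -/
theorem m_lie_hT {x : Matrix (Fin n) (Fin n) ℚ} (hx : x ∈ X.lie) : opR x ∈ X.hT := by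
  intro k t ht
  rw [kills_iff]
  have h1 : KilM x t := hx k t ht
  have h2 := h1.map (Rat.castHom ℝ)
  have e : LinearMap.toMatrix' (opR x) = x.map (Rat.castHom ℝ) := by
    rw [opR, LinearMap.toMatrix'_toLin']
    rfl
  rw [e]
  exact h2

theorem mvapp (x : Matrix (Fin n) (Fin n) ℚ) (a : Fin n → ℂ) :
    (x.map (fun q : ℚ => (q : ℂ))).mulVec a = app x a := rfl

theorem m_irrOn (hR : X.Reductive) (hE : X.EndHodge) (hM : X.RealMult) (i : Fin N) :
    CIrrOn (X.hT : Set (End ℝ (Fin n → ℝ))) (X.U i) := by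
  intro M hMU hJ hOp
  by_cases hbot : M = ⊥
  · exact Or.inl hbot
  refine Or.inr fun u hu v hv => ?_
  set S := Pool.Agent.V5helper10.DRB.cpl M hJ with hS
  have memN : ∀ w, w ∈ S ↔ (re w, im w) ∈ M := fun w => Iff.rfl
  have hst : ∀ x ∈ X.lie, ∀ w ∈ S, app x w ∈ S := by
    intro x hx w hw
    rw [memN, re_app, im_app]
    exact hOp (opR x) (m_lie_hT X hx) _ hw
  obtain ⟨S', hst', hc⟩ := hR S hst
  -- the projection
  set π : End ℂ (Fin n → ℂ) := S.subtype.comp (Submodule.projectionOnto S S' hc) with hπ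
  have π1 : ∀ w ∈ S, π w = w := by
    intro w hw
    have e := Submodule.projectionOnto_apply_left hc ⟨w, hw⟩
    rw [hπ, LinearMap.comp_apply]
    exact congrArg Subtype.val e
  have π0 : ∀ w ∈ S', π w = 0 := by
    intro w hw
    have e := Submodule.projectionOnto_apply_right hc ⟨w, hw⟩
    rw [hπ, LinearMap.comp_apply]
    exact congrArg Subtype.val e
  have hdec : ∀ w : Fin n → ℂ, ∃ a ∈ S, ∃ b ∈ S', w = a + b := by
    intro w
    have : w ∈ S ⊔ S' := by rw [hc.sup_eq_top]; exact Submodule.mem_top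
    obtain ⟨a, ha, b, hb, h⟩ := Submodule.mem_sup.1 this
    exact ⟨a, ha, b, hb, h.symm⟩
  have appadd : ∀ (x : Matrix (Fin n) (Fin n) ℚ) (a b : Fin n → ℂ),
      app x (a + b) = app x a + app x b := by
    intro x a b
    funext i
    simp [app, mul_add, Finset.sum_add_distrib]
  have hcomm : ∀ x ∈ X.lie, LinearMap.toMatrix' π * x.map (fun q : ℚ => (q : ℂ)) =
      x.map (fun q : ℚ => (q : ℂ)) * LinearMap.toMatrix' π := by
    intro x hx
    apply Matrix.toLin'.injective
    apply LinearMap.ext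
    intro w
    rw [Matrix.toLin'_mul, Matrix.toLin'_mul, LinearMap.comp_apply, LinearMap.comp_apply,
      Matrix.toLin'_toMatrix', Matrix.toLin'_apply, Matrix.toLin'_apply, mvapp, mvapp]
    obtain ⟨a, ha, b, hb, rfl⟩ := hdec w
    rw [appadd, map_add, map_add, π1 _ (hst x hx a ha), π0 _ (hst' x hx b hb), π1 a ha, π0 b hb,
      add_zero, add_zero]
  have hsp := hE _ hcomm
  -- all matrices in the span act on `U` as scalars
  let T : Submodule ℂ (Matrix (Fin n) (Fin n) ℂ) :=
    { carrier := {Q | ∃ c : ℂ, ∀ u ∈ X.U i, Q.mulVec (oR u) = c • oR u}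
      zero_mem' := ⟨0, fun u _ => by simp⟩
      add_mem' := by
        rintro a b ⟨c, hc⟩ ⟨d, hd⟩
        exact ⟨c + d, fun u hu => by rw [Matrix.add_mulVec, hc u hu, hd u hu, add_smul]⟩
      smul_mem' := by
        rintro e a ⟨c, hc⟩
        exact ⟨e * c, fun u hu => by rw [Matrix.smul_mulVec, hc u hu, smul_smul]⟩ }
  have hT : LinearMap.toMatrix' π ∈ T := by
    refine (Submodule.span_le.2 ?_) hsp
    rintro _ ⟨Q, hQ, rfl⟩
    obtain ⟨c, hc⟩ := m_hodge_U X hM hQ i
    refine ⟨c, fun u hu => ?_⟩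
    show (Q.map (fun q : ℚ => (q : ℂ))).mulVec (oR u) = _
    rw [mvapp, app_oR, hc u hu]
    funext i
    simp [oR]
  obtain ⟨c, hc'⟩ := hT
  have hcπ : ∀ u ∈ X.U i, π (oR u) = c • oR u := by
    intro u hu
    rw [← hc' u hu, LinearMap.toMatrix'_mulVec]
  -- a nonzero element of `M`
  obtain ⟨q, hq, hq0⟩ := (Submodule.ne_bot_iff M).1 hbot
  have hqU := hMU q hq
  set w : Fin n → ℂ := oR q.1 + Complex.I • oR q.2 with hw
  have hwN : w ∈ S := by
    rw [memN, hw, re_I_smul_add, im_I_smul_add]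
    exact hq
  have hw1 : c • w = w := by
    have e1 := π1 w hwN
    rw [hw, map_add, map_smul, hcπ _ hqU.1, hcπ _ hqU.2, smul_comm Complex.I c, ← smul_add] at e1
    rw [hw]
    exact e1
  have hw0 : w ≠ 0 := by
    intro h
    apply hq0
    have e1 : re w = 0 := by rw [h]; funext i; simp [re]
    have e2 : im w = 0 := by rw [h]; funext i; simp [im]
    rw [hw, re_I_smul_add] at e1
    rw [hw, im_I_smul_add] at e2
    exact Prod.ext e1 e2
  have hc1 : c = 1 := by
    have : (c - 1) • w = 0 := by rw [sub_smul, one_smul, hw1, sub_self]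
    rcases smul_eq_zero.1 this with h | h
    · exact sub_eq_zero.1 h
    · exact absurd h hw0
  -- `U` is contained in `M`
  have hfin : ∀ u ∈ X.U i, ((u, 0) : (Fin n → ℝ) × (Fin n → ℝ)) ∈ M := by
    intro u hu
    have e1 : oR u ∈ S := by
      have e2 : π (oR u) = oR u := by rw [hcπ u hu, hc1, one_smul]
      rw [← e2, hπ, LinearMap.comp_apply]
      exact (Submodule.projectionOnto S S' hc (oR u)).2
    rw [memN] at e1
    have e3 : re (oR u) = u := by funext i; simp [re, oR]
    have e4 : im (oR u) = 0 := by funext i; simp [im, oR]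
    rwa [e3, e4] at e1
  have h1 := hfin u hu
  have h2 := hJ _ (hfin v hv)
  have h3 := M.add_mem h1 h2
  simpa using h3

theorem t_IRR2 : S_irr2 := by
  intro n N X hR hE hD hM i
  exact ⟨m_irrOn X hR hE hM i, fun y hy => m_skew X hy, fun y hy u hu => m_U X hD hy hu⟩

/-- `U i` is complementary to its orthogonal complement -/
theorem m_isCompl (i : Fin N) :
    IsCompl (X.U i) (LinearMap.BilinForm.orthogonal (bilR X.B) (X.U i)) := by
  rw [LinearMap.BilinForm.isCompl_orthogonal_iff_disjoint]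
  · rw [Submodule.disjoint_def]
    intro w hw hw'
    rw [LinearMap.BilinForm.mem_orthogonal_iff] at hw'
    by_contra hw0
    have h1 : ∀ u ∈ X.U i, bilR X.B w u = 0 := by
      intro u hu
      rw [bilR_symm X.B X.symm]
      exact hw' u hu
    have h2 := m_neg X w hw0 hw.1 (h1 _ (m_re_mem_U X i)) (h1 _ (m_im_mem_U X i))
    rw [h1 w hw] at h2
    exact lt_irrefl _ h2
  · intro u v h
    rw [bilR_symm X.B X.symm]
    exact h

theorem t_IND2 : S_ind2 := by
  intro n N X hR hE hD hM i j hij Ψ hΨ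
  have hc := m_isCompl X i
  set W' := LinearMap.BilinForm.orthogonal (bilR X.B) (X.U i) with hW'
  set p := Submodule.projectionOnto (X.U i) W' hc with hp
  -- the operator
  set Rr : End ℝ (Fin n → ℝ) := (X.U j).subtype.comp (Ψ.comp p) with hRr
  have hcommR : ∀ y ∈ X.hT, ∀ v, Rr (y v) = y (Rr v) := by
    intro y hy v
    have hv : v ∈ X.U i ⊔ W' := by rw [hc.sup_eq_top]; exact Submodule.mem_top
    obtain ⟨a, ha, b, hb, rfl⟩ := Submodule.mem_sup.1 hv
    have hya : y a ∈ X.U i := m_U X hD hy ha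
    have hyb : y b ∈ W' := by
      rw [hW', LinearMap.BilinForm.mem_orthogonal_iff] at hb ⊢
      intro u hu
      have h1 := m_skew X hy u b
      have h2 : bilR X.B (y u) b = 0 := hb _ (m_U X hD hy hu)
      have h3 : bilR X.B u (y b) = 0 := by linarith
      exact h3
    have e1 : p a = ⟨a, ha⟩ := Submodule.projectionOnto_apply_left hc ⟨a, ha⟩
    have e2 : p (y a) = ⟨y a, hya⟩ := Submodule.projectionOnto_apply_left hc ⟨y a, hya⟩
    have e3 : p b = 0 := Submodule.projectionOnto_apply_right hc ⟨b, hb⟩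
    have e4 : p (y b) = 0 := Submodule.projectionOnto_apply_right hc ⟨y b, hyb⟩
    have e5 : Rr (y (a + b)) = (Ψ ⟨y a, hya⟩ : Fin n → ℝ) := by
      rw [hRr, LinearMap.comp_apply, LinearMap.comp_apply, map_add, map_add, e2, e4, add_zero]
      rfl
    have e6 : Rr (a + b) = (Ψ ⟨a, ha⟩ : Fin n → ℝ) := by
      rw [hRr, LinearMap.comp_apply, LinearMap.comp_apply, map_add, e1, e3, add_zero]
      rfl
    rw [e5, e6]
    exact (hΨ y hy ⟨a, ha⟩ ⟨y a, hya⟩ rfl).symm
  -- the complex matrix
  set Pm : Matrix (Fin n) (Fin n) ℂ := (LinearMap.toMatrix' Rr).map (fun a : ℝ => (a : ℂ)) with hPm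
  have hcomm : ∀ x ∈ X.lie, Pm * x.map (fun q : ℚ => (q : ℂ)) =
      x.map (fun q : ℚ => (q : ℂ)) * Pm := by
    intro x hx
    have h1 : Rr * opR x = opR x * Rr := by
      apply LinearMap.ext
      intro v
      exact hcommR (opR x) (m_lie_hT X hx) v
    have h2 := congrArg LinearMap.toMatrix' h1
    rw [LinearMap.toMatrix'_mul, LinearMap.toMatrix'_mul] at h2
    have e : LinearMap.toMatrix' (opR x) = x.map (fun q : ℚ => (q : ℝ)) := by
      rw [opR, LinearMap.toMatrix'_toLin']
    rw [e] at h2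
    have h3 := congrArg (fun M : Matrix (Fin n) (Fin n) ℝ => M.map Complex.ofRealHom) h2
    simp only [Matrix.map_mul] at h3
    have e2 : (x.map (fun q : ℚ => (q : ℝ))).map Complex.ofRealHom =
        x.map (fun q : ℚ => (q : ℂ)) := by
      ext a b
      simp
    rw [e2] at h3
    exact h3
  have hsp := hE _ hcomm
  -- matrices in the span are block diagonal
  let T : Submodule ℂ (Matrix (Fin n) (Fin n) ℂ) :=
    { carrier := {Q | ∀ a b, X.c a ≠ X.c b → Q a b = 0}
      zero_mem' := fun a b _ => rfl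
      add_mem' := by
        intro Q Q' h h' a b hab
        rw [Matrix.add_apply, h a b hab, h' a b hab, add_zero]
      smul_mem' := by
        intro c Q h a b hab
        rw [Matrix.smul_apply, h a b hab, smul_zero] }
  have hT : Pm ∈ T := by
    refine (Submodule.span_le.2 ?_) hsp
    rintro _ ⟨Q, hQ, rfl⟩
    intro a b hab
    show ((Q a b : ℚ) : ℂ) = 0
    rw [(hM Q hQ).2 a b hab]
    simp
  apply LinearMap.ext
  intro u
  have h1 : (Ψ u : Fin n → ℝ) = Rr u := by
    have e1 : p (u : Fin n → ℝ) = u := Submodule.projectionOnto_apply_left hc u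
    rw [hRr, LinearMap.comp_apply, LinearMap.comp_apply, e1]
    rfl
  have h2 : (Ψ u : Fin n → ℝ) = 0 := by
    funext a
    by_cases ha : X.c a = j
    · rw [h1]
      have e2 : Rr (u : Fin n → ℝ) a = ∑ b, (LinearMap.toMatrix' Rr) a b * (u : Fin n → ℝ) b := by
        conv_lhs => rw [← LinearMap.toMatrix'_mulVec Rr (u : Fin n → ℝ)]
        rfl
      rw [e2]
      refine Finset.sum_eq_zero fun b _ => ?_
      by_cases hb : X.c b = i
      · have h3 := hT a b (by rw [ha, hb]; exact Ne.symm hij)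
        rw [hPm, Matrix.map_apply] at h3
        have h4 : (LinearMap.toMatrix' Rr) a b = 0 := by exact_mod_cast h3
        rw [h4, zero_mul]
      · rw [u.2.1 b hb, mul_zero]
    · exact (Ψ u).2.1 a ha
  apply Subtype.ext
  rw [h2]
  rfl

end

end Pool.Agent.V5helper68.DRB
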